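import Pool.Agent.H36.NF.LDTNa

/-!
# NF, LDTN: a good prime, the main computation (part 2)
-/

set_option autoImplicit false

namespace Pool.NF

open Polynomial Matrix Pool.HYP Pool.TOW Pool.AVS Pool.T1 IsDedekindDomain NumberField Pool.NF.LDN
  Pool.T1.H22

/-- LDTN: a good prime, the main computation. -/
theorem ldtn (hBK : BKDStmt) (hFS : FSQStmt) (hT : TRFStmt) (hW : WAPStmt)
    (hSA : SEMANStmt) (hSB : SEMBNStmt) (hSC : SEMCNStmt) (hI : IZVStmt) (hV : VQBStmt) :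
    LDTNStmt := by
  classical
  intro K _ _ n g ω p hp hp2 hG T ϖ hϖ A hAT hAI hAN hAB
  have := Fact.mk hp
  have h2 : (2 : ZMod p) ≠ 0 := by
    intro h
    have h3 : ((2 : ℕ) : ZMod p) = 0 := h
    rw [ZMod.natCast_eq_zero_iff] at h3
    exact hp2 ((Nat.prime_dvd_prime_iff_eq hp Nat.prime_two).1 h3)
  have hTr : ∀ a ∈ IS K p, Algebra.trace ℚ K a ∈ IZ p :=
    fun a ha => (hSB K p hp a ha).2.1
  obtain ⟨-, -, -, -, -, t6, -, -, t9⟩ := hT ℚ K n (2 * g + 1) ω
  set BT : Finset (HeightOneSpectrum (𝓞 K)) := T.filter fun P => Abv p P with hBT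
  have hB1 : ∀ P : BT, P.1 ∈ T := fun P => (Finset.mem_filter.1 P.2).1
  have hB2 : ∀ P : BT, Abv p P.1 := fun P => (Finset.mem_filter.1 P.2).2
  choose y d η Ψ c1 c2 cJ c3 c4 c5 c6 using fun P : BT =>
    LDN.perP hBK hFS hW hSA hSB hSC hI hV ω hp hp2 hG P.1 (hB2 P) (ϖ P.1)
      (hϖ P.1 (hB1 P)) A (hAB P.1 (hB1 P) (hB2 P))
  have h0 : ∀ P : BT, ((ϖ P.1 : 𝓞 K) : K) ≠ 0 := by
    intro P
    have h1 : ϖ P.1 ≠ 0 := by
      intro h
      refine (hϖ P.1 (hB1 P)).2 ?_
      rw [h]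
      exact Ideal.zero_mem _
    exact alg_ne (R := 𝓞 K) (K := K) h1
  obtain ⟨u, hu⟩ : ∃ u : (Σ P : BT, Fin (2 * g) × Fin (d P)) → Fin (2 * g + 1) × Fin n → ℚ,
      u = fun e => cv ω (Pi.single e.2.1.succ ((η e.1 e.2.2 : K) * y e.1)) := ⟨_, rfl⟩
  -- the entries of `y A`
  have hyA : ∀ (P : BT) (i : Fin (2 * g + 1)) (j : Fin (2 * g)),
      y P * A i j.succ ∈ IS K p := by
    intro P i j Q hQ
    by_cases hQP : Q = P.1
    · rw [hQP]
      have h1 : y P * A i j.succ = ((ϖ P.1 : K) * y P) * (A i j.succ / (ϖ P.1 : K)) := by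
        have := h0 P
        field_simp
      rw [h1]
      refine rp_mul (c1 P) ?_
      obtain ⟨-, b2, b3, -⟩ := hAB P.1 (hB1 P) (hB2 P)
      refine Fin.cases ?_ (fun i' => ?_) i
      · exact (b2 j).1
      · exact b3 i' j
    · exact rp_mul (c2 P Q hQ hQP) (hAI i j.succ Q hQ)
  have hη : ∀ (P : BT) (a : Fin (d P)), (η P a : K) ∈ IS K p := fun P a => is_alg (η P a)
  have hpair : ∀ e e', u e ⬝ᵥ (trm ω A *ᵥ u e') = Algebra.trace ℚ K
      (((η e.1 e.2.2 : K) * y e.1) * (A e.2.1.succ e'.2.1.succ * ((η e'.1 e'.2.2 : K) * y e'.1))) := by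
    intro e e'
    rw [hu]
    show cv ω _ ⬝ᵥ (trm ω A *ᵥ cv ω _) = _
    rw [t6, single_dotProduct, mulVec_single']
  have hpJ : ∀ e e' : (Σ P : BT, Fin (2 * g) × Fin (d P)),
      ((η e.1 e.2.2 : K) * y e.1) * (A e.2.1.succ e'.2.1.succ * ((η e'.1 e'.2.2 : K) * y e'.1)) ∈
        JS K p := by
    intro e e'
    have h1 : ((η e.1 e.2.2 : K) * y e.1) *
        (A e.2.1.succ e'.2.1.succ * ((η e'.1 e'.2.2 : K) * y e'.1)) =
        ((η e.1 e.2.2 : K) * (η e'.1 e'.2.2 : K) * (y e.1 * A e.2.1.succ e'.2.1.succ)) *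
          y e'.1 := by ring
    rw [h1]
    exact js_mul (is_mul (is_mul (hη _ _) (hη _ _)) (hyA _ _ _)) (cJ _)
  have hgram : (Matrix.of fun e e' => rz p ((p : ℚ) * (u e ⬝ᵥ (trm ω A *ᵥ u e')))) =
      Matrix.blockDiagonal' fun P : BT => Matrix.of fun s t : Fin (2 * g) × Fin (d P) =>
        tau p ((η P s.2 : K) * (η P t.2 : K) * (Ψ P s.1 t.1 : K) * y P) := by
    ext e e'
    obtain ⟨P, s⟩ := e
    obtain ⟨P', t⟩ := e'
    rw [Matrix.of_apply, hpair]
    by_cases hPP : P = P'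
    · subst hPP
      rw [Matrix.blockDiagonal'_apply_eq, Matrix.of_apply]
      show tau p (((η P s.2 : K) * y P) *
        (A s.1.succ t.1.succ * ((η P t.2 : K) * y P))) = _
      have h1 : ((η P s.2 : K) * y P) * (A s.1.succ t.1.succ * ((η P t.2 : K) * y P)) =
          (η P s.2 : K) * (η P t.2 : K) * (Ψ P s.1 t.1 : K) * y P +
          ((η P s.2 : K) * (η P t.2 : K)) * ((y P * A s.1.succ t.1.succ -
            (Ψ P s.1 t.1 : K)) * y P) := by ring
      have h4 : ((η P s.2 : K) * (η P t.2 : K)) * ((y P * A s.1.succ t.1.succ -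
            (Ψ P s.1 t.1 : K)) * y P) ∈ IS K p := by
        refine is_mul (is_mul (hη P _) (hη P _)) fun Q hQ => ?_
        by_cases hQP : Q = P.1
        · rw [hQP]
          have h3 : (y P * A s.1.succ t.1.succ - (Ψ P s.1 t.1 : K)) * y P =
              ((y P * A s.1.succ t.1.succ - (Ψ P s.1 t.1 : K)) / (ϖ P.1 : K)) *
                ((ϖ P.1 : K) * y P) := by
            have := h0 P
            field_simp
          rw [h3]
          exact rp_mul (c3 P s.1 t.1) (c1 P)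
        · refine rp_mul ?_ (c2 P Q hQ hQP)
          have h3 : y P * A s.1.succ t.1.succ - (Ψ P s.1 t.1 : K) =
              y P * A s.1.succ t.1.succ + (-1) * (Ψ P s.1 t.1 : K) := by ring
          rw [h3]
          refine rp_add (hyA P _ _ Q hQ) (rp_mul ?_ (rp_alg _))
          have := rp_alg (K := K) (P := Q) (-1 : 𝓞 K)
          rwa [map_neg, map_one] at this
      rw [h1, tau_add hI hSB hp (js_mul (is_mul (is_mul (hη P _) (hη P _)) (is_alg _)) (cJ P))
        (js_is h4), tau_is hI hSB hp h4, add_zero]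
    · rw [Matrix.blockDiagonal'_apply_ne _ _ _ hPP]
      show tau p (((η P s.2 : K) * y P) *
        (A s.1.succ t.1.succ * ((η P' t.2 : K) * y P'))) = _
      refine tau_is hI hSB hp ?_
      have h1 : ((η P s.2 : K) * y P) * (A s.1.succ t.1.succ * ((η P' t.2 : K) * y P')) =
          ((η P s.2 : K) * (η P' t.2 : K)) * (y P * A s.1.succ t.1.succ * y P') := by ring
      rw [h1]
      refine is_mul (is_mul (hη P _) (hη P' _)) fun Q hQ => ?_
      by_cases hQP : Q = P'.1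
      · have h3 : y P * A s.1.succ t.1.succ * y P' = y P * (y P' * A s.1.succ t.1.succ) := by ring
        rw [h3]
        refine rp_mul (c2 P Q hQ ?_) (hyA P' _ _ Q hQ)
        intro h4
        exact hPP (Subtype.ext (h4.symm.trans hQP))
      · exact rp_mul (hyA P _ _ Q hQ) (c2 P' Q hQ hQP)
  have hdet : (-1 : ZMod p) ^ (g * ∑ P : BT, d P) *
      (Matrix.of fun e e' => rz p ((p : ℚ) * (u e ⬝ᵥ (trm ω A *ᵥ u e')))).det =
      ∏ P : BT, ((-1) ^ (g * d P) * (Matrix.of fun s t : Fin (2 * g) × Fin (d P) =>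
        tau p ((η P s.2 : K) * (η P t.2 : K) * (Ψ P s.1 t.1 : K) * y P)).det) := by
    rw [hgram, det_bd, Finset.prod_mul_distrib, Finset.prod_pow_eq_pow_sum,
      Finset.mul_sum]
  have hne : ∀ P : BT, ((-1 : ZMod p) ^ (g * d P) *
      (Matrix.of fun s t : Fin (2 * g) × Fin (d P) =>
        tau p ((η P s.2 : K) * (η P t.2 : K) * (Ψ P s.1 t.1 : K) * y P)).det) ≠ 0 := fun P =>
    mul_ne_zero (pow_ne_zero _ (neg_ne_zero.2 one_ne_zero)) (c5 P)
  refine ⟨g * ∑ P : BT, d P, (-1 : ZMod p) ^ (g * ∑ P : BT, d P) *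
      (Matrix.of fun e e' => rz p ((p : ℚ) * (u e ⬝ᵥ (trm ω A *ᵥ u e')))).det, ?_, ?_, ?_⟩
  · rw [hdet]
    exact Finset.prod_ne_zero_iff.2 fun P _ => hne P
  · refine ⟨1, (Σ P : BT, Fin (2 * g) × Fin (d P)), inferInstance, inferInstance, u, ?_,
      ?_, ?_, ?_, ?_, ?_, rfl⟩
    · rw [Matrix.det_one]
      exact one_ne_zero
    · rw [Fintype.card_sigma]
      simp only [Fintype.card_prod, Fintype.card_fin]
      rw [← Finset.mul_sum]
      ring
    · intro r s
      rw [Matrix.transpose_one, Matrix.one_mul, Matrix.mul_one]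
      refine hTr _ (is_mul (is_mul ?_ ?_) (hAI _ _))
      · exact fun Q _ => rp_alg (⟨ω r.2, hG.1 r.2⟩ : 𝓞 K)
      · exact fun Q _ => rp_alg (⟨ω s.2, hG.1 s.2⟩ : 𝓞 K)
    · intro e r
      rw [Matrix.transpose_one, Matrix.one_mulVec, hu]
      show (trm ω A *ᵥ cv ω _) r ∈ IZ p
      rw [trm_mulVec ω t6, mulVec_single']
      refine hTr _ (is_mul (fun Q _ => rp_alg (⟨ω r.2, hG.1 r.2⟩ : 𝓞 K)) ?_)
      have h1 : A r.1 e.2.1.succ * ((η e.1 e.2.2 : K) * y e.1) =
          (η e.1 e.2.2 : K) * (y e.1 * A r.1 e.2.1.succ) := by ring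
      rw [h1]
      exact is_mul (hη _ _) (hyA _ _ _)
    · intro e e'
      rw [hpair]
      exact tr_js hSB hp (hpJ e e')
    · intro x hx hxu r
      rw [inv_one, Matrix.one_mulVec]
      obtain ⟨ξ, rfl⟩ := t9 x
      -- `A ξ` is regular
      have hw : ∀ q, (A *ᵥ ξ) q ∈ IS K p := by
        intro q
        refine ((hSC K n ω p hp hG _).2.2) fun i => ?_
        have h1 := hx (q, i)
        rw [Matrix.transpose_one, Matrix.one_mulVec, trm_mulVec ω t6] at h1
        rwa [mul_comm]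
      suffices hξ : ∀ q, ξ q ∈ IS K p by
        exact (hSC K n ω p hp hG _).1.1 (hξ r.1) r.2
      intro q Q hQ
      by_cases hQT : Q ∈ T
      · obtain ⟨P, rfl⟩ : ∃ P : BT, P.1 = Q := ⟨⟨Q, Finset.mem_filter.2 ⟨hQT, hQ⟩⟩, rfl⟩
        obtain ⟨⟨O, hO, hU, -⟩, v2, v3⟩ := hV (𝓞 K) K P.1 (ϖ P.1) (hϖ P.1 (hB1 P)).1
          (hϖ P.1 (hB1 P)).2
        have hmem : ∀ x : K, x ∈ RP K P.1 ↔ x ∈ O := fun x => by rw [← hO]; rfl
        have hAB' := hAB P.1 (hB1 P) (hB2 P)
        rw [← hO] at hAB'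
        rw [hmem]
        refine blk_solve O hU A (fun i j => (hmem _).1 (hAI i j _ hQ)) hAB' ξ
          ((hmem _).1 (hw 0 _ hQ)) (fun j => ?_) q
        rw [← hmem]
        obtain ⟨w, hw1⟩ := v3 ((A *ᵥ ξ) j.succ) (hw j.succ _ hQ)
        have hw2 : ((A *ᵥ ξ) j.succ - (w : K)) / (ϖ P.1 : K) ∈ RP K P.1 := hw1
        have hw3 : w ∈ P.1.asIdeal := by
          refine c4 P w fun a => ?_
          have h1 := hxu ⟨P, (j, a)⟩
          rw [hu] at h1
          have h3 : cv ω ξ ⬝ᵥ (trm ω A *ᵥ cv ω (Pi.single j.succ ((η P a : K) * y P))) =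
              Algebra.trace ℚ K ((η P a : K) * y P * (A *ᵥ ξ) j.succ) := by
            rw [t6]
            congr 1
            rw [Matrix.dotProduct_mulVec, dotProduct_single, ← Matrix.mulVec_transpose, hAT]
            ring
          have hJ1 : (η P a : K) * y P * (A *ᵥ ξ) j.succ ∈ JS K p := by
            have h8 : (η P a : K) * y P * (A *ᵥ ξ) j.succ =
                (η P a : K) * (A *ᵥ ξ) j.succ * y P := by ring
            rw [h8]
            exact js_mul (is_mul (hη _ _) (hw _)) (cJ P)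
          have h4 : tau p ((η P a : K) * y P * (A *ᵥ ξ) j.succ) = 0 := by
            rw [tau_iff hI hSB hp hJ1, ← h3]
            exact h1
          have h5 : (η P a : K) * y P * (A *ᵥ ξ) j.succ = (η P a : K) * (w : K) * y P +
              (η P a : K) * (((A *ᵥ ξ) j.succ - (w : K)) * y P) := by ring
          have h9 : (η P a : K) * (((A *ᵥ ξ) j.succ - (w : K)) * y P) ∈ IS K p := by
            refine is_mul (hη _ _) fun Q' hQ' => ?_
            by_cases hQP : Q' = P.1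
            · rw [hQP]
              have h3 : ((A *ᵥ ξ) j.succ - (w : K)) * y P =
                  (((A *ᵥ ξ) j.succ - (w : K)) / (ϖ P.1 : K)) * ((ϖ P.1 : K) * y P) := by
                have := h0 P
                field_simp
              rw [h3]
              exact rp_mul hw2 (c1 P)
            · refine rp_mul ?_ (c2 P Q' hQ' hQP)
              have h3 : (A *ᵥ ξ) j.succ - (w : K) = (A *ᵥ ξ) j.succ + (-1) * (w : K) := by ring
              rw [h3]
              refine rp_add (hw _ _ hQ') (rp_mul ?_ (rp_alg _))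
              have := rp_alg (K := K) (P := Q') (-1 : 𝓞 K)
              rwa [map_neg, map_one] at this
          rw [h5, tau_add hI hSB hp (js_mul (is_mul (hη _ _) (is_alg _)) (cJ P)) (js_is h9),
            tau_is hI hSB hp h9, add_zero] at h4
          exact h4
        have h6 : (A *ᵥ ξ) j.succ / (ϖ P.1 : K) =
            ((A *ᵥ ξ) j.succ - (w : K)) / (ϖ P.1 : K) + (w : K) / (ϖ P.1 : K) := by ring
        have h7 : (A *ᵥ ξ) j.succ / (ϖ P.1 : K) ∈ RP K P.1 := by
          rw [h6]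
          exact rp_add hw2 ((v2 w).2 hw3)
        exact h7
      · obtain ⟨ϖ', hϖ1, hϖ2⟩ : ∃ a : 𝓞 K, a ∈ Q.asIdeal ∧ a ∉ Q.asIdeal ^ 2 :=
          SetLike.exists_of_lt (Ideal.pow_succ_lt_pow (P := Q.asIdeal) Q.ne_bot 1 |> fun h => by
            rwa [pow_one] at h)
        obtain ⟨⟨O, hO, hU, -⟩, -, -⟩ := hV (𝓞 K) K Q ϖ' hϖ1 hϖ2
        have hmem : ∀ x : K, x ∈ RP K Q ↔ x ∈ O := fun x => by rw [← hO]; rfl
        rw [hmem]
        refine cramer_mem O A (fun i j => (hmem _).1 (hAI i j _ hQ)) ?_ ξ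
          (fun i => (hmem _).1 (hw i _ hQ)) q
        rw [hO]
        exact hAN Q hQ hQT
  · rw [hdet, hFS.1 (ZMod p) h2 BT Finset.univ _ fun P _ => hne P]
    have h1 : {P | P ∈ T ∧ Abv p P ∧
        ¬ SqQ (RP K P) (ϖ P : K) ((-1) ^ g * dsc (ϖ P : K) A)} =
        Subtype.val '' {P : BT | P ∈ Finset.univ ∧ ¬ IsSquare ((-1 : ZMod p) ^ (g * d P) *
          (Matrix.of fun s t : Fin (2 * g) × Fin (d P) =>
          tau p ((η P s.2 : K) * (η P t.2 : K) * (Ψ P s.1 t.1 : K) * y P)).det)} := by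
      ext Q
      constructor
      · rintro ⟨a1, a2, a3⟩
        refine ⟨⟨Q, Finset.mem_filter.2 ⟨a1, a2⟩⟩, ⟨Finset.mem_univ _, ?_⟩, rfl⟩
        rw [c6]
        exact a3
      · rintro ⟨P, ⟨-, hP⟩, rfl⟩
        rw [c6] at hP
        exact ⟨hB1 P, hB2 P, hP⟩
    rw [h1, Set.ncard_image_of_injective _ Subtype.val_injective]

end Pool.NF
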