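import Pool.Agent.H22.T1.LDT
import Pool.Agent.H2.NF.S3

/-!
# NF, LDTN: a good prime, the main computation (part 1: one prime)

The arguments are those of helper22 for T1 (H22/T1/LDTb), with the residue modulo `p` of `p` times
the trace instead of the residue of the trace.
-/

set_option autoImplicit false

namespace Pool.NF.LDN

open Polynomial Matrix Pool.HYP Pool.TOW Pool.AVS Pool.T1 IsDedekindDomain NumberField

/-! ### The rational numbers integral at `p` -/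

theorem iz_mul (hI : IZVStmt) {p : ℕ} (hp : p.Prime) {x y : ℚ} (hx : x ∈ IZ p) (hy : y ∈ IZ p) :
    x * y ∈ IZ p := by
  obtain ⟨O, hO, -⟩ := hI p hp
  rw [← hO] at hx hy ⊢
  exact O.mul_mem _ _ hx hy

theorem iz_add (hI : IZVStmt) {p : ℕ} (hp : p.Prime) {x y : ℚ} (hx : x ∈ IZ p) (hy : y ∈ IZ p) :
    x + y ∈ IZ p := by
  obtain ⟨O, hO, -⟩ := hI p hp
  rw [← hO] at hx hy ⊢
  exact O.add_mem _ _ hx hy

theorem iz_nat {p : ℕ} (hp : p.Prime) (n : ℕ) : (n : ℚ) ∈ IZ p := by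
  show ¬ p ∣ ((n : ℚ)).den
  rw [Rat.den_natCast]
  exact hp.one_lt.ne' ∘ Nat.dvd_one.1

theorem rz_nat {p : ℕ} (hp : p.Prime) (n : ℕ) : rz p (n : ℚ) = (n : ZMod p) := by
  have := Fact.mk hp
  have h1 : ((1 : ZMod p))⁻¹ = 1 := inv_one
  unfold rz
  rw [Rat.num_natCast, Rat.den_natCast, Nat.cast_one, h1, mul_one, Int.cast_natCast]

/-- The residue of `p x`. -/
noncomputable def rr (p : ℕ) (x : ℚ) : ZMod p := rz p ((p : ℚ) * x)

theorem rr_iff (hI : IZVStmt) {p : ℕ} (hp : p.Prime) {x : ℚ} (hx : (p : ℚ) * x ∈ IZ p) :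
    rr p x = 0 ↔ x ∈ IZ p := by
  obtain ⟨O, hO, -, -, h4, -⟩ := hI p hp
  have h0 : (p : ℚ) ≠ 0 := Nat.cast_ne_zero.2 hp.ne_zero
  have h := h4 _ hx
  rw [mul_div_cancel_left₀ _ h0] at h
  exact h

theorem rr_add (hI : IZVStmt) {p : ℕ} (hp : p.Prime) {x y : ℚ} (hx : (p : ℚ) * x ∈ IZ p)
    (hy : (p : ℚ) * y ∈ IZ p) : rr p (x + y) = rr p x + rr p y := by
  obtain ⟨O, hO, -, -, -, h5, -⟩ := hI p hp
  unfold rr
  rw [mul_add]
  exact (h5 _ hx _ hy).1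

theorem rr_nat (hI : IZVStmt) {p : ℕ} (hp : p.Prime) {x : ℚ} (n : ℕ) (hx : (p : ℚ) * x ∈ IZ p) :
    rr p ((n : ℚ) * x) = (n : ZMod p) * rr p x := by
  obtain ⟨O, hO, -, -, -, h5, -⟩ := hI p hp
  unfold rr
  rw [mul_left_comm, (h5 _ (iz_nat hp n) _ hx).2, rz_nat hp]

section K

variable {K : Type} [Field K] [NumberField K]

/-- `p a` is regular above `p`. -/
def JS (K : Type) [Field K] [NumberField K] (p : ℕ) : Set K := {a | (p : K) * a ∈ IS K p}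

/-- The residue of `p` times the trace. -/
noncomputable def tau (p : ℕ) (a : K) : ZMod p := rr p (Algebra.trace ℚ K a)

theorem is_mul {p : ℕ} {a b : K} (ha : a ∈ IS K p) (hb : b ∈ IS K p) : a * b ∈ IS K p :=
  fun Q hQ => rp_mul (ha Q hQ) (hb Q hQ)

theorem is_add {p : ℕ} {a b : K} (ha : a ∈ IS K p) (hb : b ∈ IS K p) : a + b ∈ IS K p :=
  fun Q hQ => rp_add (ha Q hQ) (hb Q hQ)

theorem is_alg {p : ℕ} (a : 𝓞 K) : (a : K) ∈ IS K p := fun _ _ => rp_alg a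

theorem is_nat (p n : ℕ) : (n : K) ∈ IS K p := by
  have h := is_alg (p := p) (n : 𝓞 K)
  have h2 : ((n : 𝓞 K) : K) = (n : K) := map_natCast (algebraMap (𝓞 K) K) n
  rwa [h2] at h

theorem js_is {p : ℕ} {a : K} (ha : a ∈ IS K p) : a ∈ JS K p := is_mul (is_nat p p) ha

theorem js_mul {p : ℕ} {a b : K} (ha : a ∈ IS K p) (hb : b ∈ JS K p) : a * b ∈ JS K p := by
  show (p : K) * (a * b) ∈ IS K p
  rw [mul_left_comm]
  exact is_mul ha hb

theorem js_add {p : ℕ} {a b : K} (ha : a ∈ JS K p) (hb : b ∈ JS K p) : a + b ∈ JS K p := by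
  show (p : K) * (a + b) ∈ IS K p
  rw [mul_add]
  exact is_add ha hb

theorem tr_js (hSB : SEMBNStmt) {p : ℕ} (hp : p.Prime) {a : K} (ha : a ∈ JS K p) :
    (p : ℚ) * Algebra.trace ℚ K a ∈ IZ p := by
  have h1 : (p : ℚ) * Algebra.trace ℚ K a = Algebra.trace ℚ K ((p : K) * a) := by
    have h2 : (p : K) * a = (p : ℚ) • a := by
      rw [Algebra.smul_def, map_natCast]
    rw [h2, map_smul, smul_eq_mul]
  rw [h1]
  exact (hSB K p hp _ ha).2.1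

theorem tau_add (hI : IZVStmt) (hSB : SEMBNStmt) {p : ℕ} (hp : p.Prime) {a b : K}
    (ha : a ∈ JS K p) (hb : b ∈ JS K p) : tau p (a + b) = tau p a + tau p b := by
  unfold tau
  rw [map_add, rr_add hI hp (tr_js hSB hp ha) (tr_js hSB hp hb)]

theorem tau_iff (hI : IZVStmt) (hSB : SEMBNStmt) {p : ℕ} (hp : p.Prime) {a : K}
    (ha : a ∈ JS K p) : tau p a = 0 ↔ Algebra.trace ℚ K a ∈ IZ p :=
  rr_iff hI hp (tr_js hSB hp ha)

theorem tau_is (hI : IZVStmt) (hSB : SEMBNStmt) {p : ℕ} (hp : p.Prime) {a : K}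
    (ha : a ∈ IS K p) : tau p a = 0 :=
  (tau_iff hI hSB hp (js_is ha)).2 (hSB K p hp a ha).2.1

theorem tau_nat (hI : IZVStmt) (hSB : SEMBNStmt) {p : ℕ} (hp : p.Prime) (n : ℕ) {a : K}
    (ha : a ∈ JS K p) : tau p ((n : K) * a) = (n : ZMod p) * tau p a := by
  unfold tau
  have h2 : (n : K) * a = (n : ℚ) • a := by
    rw [Algebra.smul_def, map_natCast]
  rw [h2, map_smul, smul_eq_mul, rr_nat hI hp n (tr_js hSB hp ha)]

theorem dataP (hB : BKDStmt) (hS : FSQStmt) {p : ℕ} (hp : p.Prime) (hp2 : p ≠ 2)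
    (P : HeightOneSpectrum (𝓞 K)) (hP : Abv p P) (φ : 𝓞 K → ZMod p)
    (hadd : ∀ a b, φ (a + b) = φ a + φ b)
    (hsm : ∀ (c : ZMod p) a, φ ((c.val : 𝓞 K) * a) = c * φ a)
    (hker : ∀ a ∈ P.asIdeal, φ a = 0) (hne : ∃ a, φ a ≠ 0) :
    ∃ (d : ℕ) (η : Fin d → 𝓞 K), (∀ w, (∀ a, φ (η a * w) = 0) → w ∈ P.asIdeal) ∧
      ∀ (g : ℕ) (Ψ : Matrix (Fin (2 * g)) (Fin (2 * g)) (𝓞 K)), Ψ.det ∉ P.asIdeal →
        (Matrix.of fun s t : Fin (2 * g) × Fin d => φ (η s.2 * η t.2 * Ψ s.1 t.1)).det ≠ 0 ∧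
        (IsSquare ((-1) ^ (g * d) *
          (Matrix.of fun s t : Fin (2 * g) × Fin d => φ (η s.2 * η t.2 * Ψ s.1 t.1)).det) ↔
          ∃ a : 𝓞 K, (-1) ^ g * Ψ.det - a ^ 2 ∈ P.asIdeal) := by
  have := Fact.mk hp
  have := P.isMaximal
  let := Ideal.Quotient.field P.asIdeal
  have hfin : Finite (𝓞 K ⧸ P.asIdeal) := P.asIdeal.finiteQuotientOfFreeOfNeBot P.ne_bot
  have hpE : ((p : ℕ) : 𝓞 K ⧸ P.asIdeal) = 0 := by
    have h1 : Ideal.Quotient.mk P.asIdeal (p : 𝓞 K) = 0 := Ideal.Quotient.eq_zero_iff_mem.2 hP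
    rwa [map_natCast] at h1
  have hch : CharP (𝓞 K ⧸ P.asIdeal) p := (CharP.charP_iff_prime_eq_zero hp).2 hpE
  let : Algebra (ZMod p) (𝓞 K ⧸ P.asIdeal) := ZMod.algebra _ p
  have h2 : (2 : ZMod p) ≠ 0 := by
    intro h
    have h3 : ((2 : ℕ) : ZMod p) = 0 := h
    rw [ZMod.natCast_eq_zero_iff] at h3
    exact hp2 ((Nat.prime_dvd_prime_iff_eq hp Nat.prime_two).1 h3)
  obtain ⟨d, η, h3, h4⟩ := H22.oneE (E := 𝓞 K ⧸ P.asIdeal) hB hS h2
    (Ideal.Quotient.mk P.asIdeal) Ideal.Quotient.mk_surjective (fun c => (c.val : 𝓞 K))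
    (fun c => by
      rw [map_natCast, ← map_natCast (algebraMap (ZMod p) (𝓞 K ⧸ P.asIdeal)),
        ZMod.natCast_zmod_val]) φ hadd hsm
    (fun a ha => hker a (Ideal.Quotient.eq_zero_iff_mem.1 ha)) hne
  refine ⟨d, η, fun w hw => Ideal.Quotient.eq_zero_iff_mem.1 (h3 w hw), fun g Ψ hΨ => ?_⟩
  obtain ⟨h5, h6⟩ := h4 g Ψ fun h => hΨ (Ideal.Quotient.eq_zero_iff_mem.1 h)
  refine ⟨h5, h6.trans ?_⟩
  constructor
  · rintro ⟨r, hr⟩
    obtain ⟨a, rfl⟩ := Ideal.Quotient.mk_surjective r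
    refine ⟨a, ?_⟩
    rw [← Ideal.Quotient.eq, hr, map_pow, sq]
  · rintro ⟨a, ha⟩
    refine ⟨Ideal.Quotient.mk P.asIdeal a, ?_⟩
    rw [← Ideal.Quotient.eq] at ha
    rw [ha, map_pow, sq]

theorem perP (hBK : BKDStmt) (hFS : FSQStmt) (hW : WAPStmt) (hSA : SEMANStmt)
    (hSB : SEMBNStmt) (hSC : SEMCNStmt) (hI : IZVStmt) (hV : VQBStmt) {n g : ℕ}
    (ω : Module.Basis (Fin n) ℚ K) {p : ℕ} (hp : p.Prime) (hp2 : p ≠ 2) (hG : Good ω p)
    (P : HeightOneSpectrum (𝓞 K)) (hP : Abv p P) (ϖ : 𝓞 K)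
    (hϖ : ϖ ∈ P.asIdeal ∧ ϖ ∉ P.asIdeal ^ 2)
    (A : Matrix (Fin (2 * g + 1)) (Fin (2 * g + 1)) K)
    (hAB : BlkQ (RP K P) (ϖ : K) A) :
    ∃ (y : K) (d : ℕ) (η : Fin d → 𝓞 K) (Ψ : Matrix (Fin (2 * g)) (Fin (2 * g)) (𝓞 K)),
      (ϖ : K) * y ∈ RP K P ∧ (∀ Q, Abv p Q → Q ≠ P → y ∈ RP K Q) ∧ y ∈ JS K p ∧
      (∀ i j : Fin (2 * g), (y * A i.succ j.succ - (Ψ i j : K)) / (ϖ : K) ∈ RP K P) ∧
      (∀ w : 𝓞 K, (∀ a, tau p ((η a : K) * (w : K) * y) = 0) → w ∈ P.asIdeal) ∧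
      (Matrix.of fun s t : Fin (2 * g) × Fin d =>
        tau p ((η s.2 : K) * (η t.2 : K) * (Ψ s.1 t.1 : K) * y)).det ≠ 0 ∧
      (IsSquare ((-1) ^ (g * d) * (Matrix.of fun s t : Fin (2 * g) × Fin d =>
        tau p ((η s.2 : K) * (η t.2 : K) * (Ψ s.1 t.1 : K) * y)).det) ↔
        SqQ (RP K P) (ϖ : K) ((-1) ^ g * dsc (ϖ : K) A)) := by
  classical
  have := Fact.mk hp
  obtain ⟨⟨O, hO, hU, -⟩, v2, v3⟩ := hV (𝓞 K) K P ϖ hϖ.1 hϖ.2
  have hmem : ∀ x : K, x ∈ RP K P ↔ x ∈ O := fun x => by rw [← hO]; rfl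
  have hU' : Unif O (ϖ : K) := hU
  have h0 : (ϖ : K) ≠ 0 := hU'.1
  obtain ⟨y, hy⟩ := (hW (𝓞 K) K ((hSA K).1 p hp.ne_zero).toFinset 1 one_ne_zero).1
    (fun Q => if Q = P then (ϖ : K)⁻¹ else 0)
  have hy1 : y - (ϖ : K)⁻¹ ∈ RP K P := by
    have := hy P (by rw [Set.Finite.mem_toFinset]; exact hP)
    rwa [if_pos rfl, div_one] at this
  have hy2 : ∀ Q, Abv p Q → Q ≠ P → y ∈ RP K Q := by
    intro Q hQ hQP
    have := hy Q (by rw [Set.Finite.mem_toFinset]; exact hQ)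
    rwa [if_neg hQP, div_one, sub_zero] at this
  have hϖm : (ϖ : K) ∈ RP K P := rp_alg ϖ
  have hy3 : (ϖ : K) * y ∈ RP K P := by
    have h1 : (ϖ : K) * y = ϖ * (y - (ϖ : K)⁻¹) + 1 := by
      field_simp
      ring
    rw [h1]
    exact rp_add (rp_mul hϖm hy1) rp_one
  have hpc : ((p : 𝓞 K) : K) = (p : K) := map_natCast (algebraMap (𝓞 K) K) p
  have hyJ : y ∈ JS K p := by
    intro Q hQ
    by_cases hQP : Q = P
    · rw [hQP]
      have h1 : (p : K) * y = ((p : 𝓞 K) : K) / (ϖ : K) * ((ϖ : K) * y) := by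
        rw [hpc]
        field_simp
      rw [h1]
      exact rp_mul ((v2 (p : 𝓞 K)).2 hP) hy3
    · exact rp_mul (is_nat p p Q hQ) (hy2 Q hQ hQP)
  obtain ⟨b1, b2, b3, b4⟩ := hAB
  choose Ψ hΨ using fun i j : Fin (2 * g) => v3 (A i.succ j.succ / (ϖ : K)) (b3 i j)
  have hΨ' : ∀ i j, (A i.succ j.succ / (ϖ : K) - (Ψ i j : K)) / (ϖ : K) ∈ RP K P := hΨ
  have hy4 : y ∉ IS K p := by
    intro h
    have h1 : (ϖ : K)⁻¹ ∈ O := by
      rw [← hmem]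
      have h3 : (ϖ : K)⁻¹ = y + (-1) * (y - (ϖ : K)⁻¹) := by ring
      rw [h3]
      refine rp_add (h P hP) (rp_mul ?_ hy1)
      have := rp_alg (K := K) (P := P) (-1 : 𝓞 K)
      rwa [map_neg, map_one] at this
    exact hU'.2.2.1 h1
  set φ : 𝓞 K → ZMod p := fun a => tau p ((a : K) * y) with hφ
  have hadd : ∀ a b, φ (a + b) = φ a + φ b := by
    intro a b
    show tau p (((a + b : 𝓞 K) : K) * y) = _
    have h1 : ((a + b : 𝓞 K) : K) * y = (a : K) * y + (b : K) * y := by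
      rw [← add_mul]
      rfl
    rw [h1, tau_add hI hSB hp (js_mul (is_alg a) hyJ) (js_mul (is_alg b) hyJ)]
  have hsm : ∀ (c : ZMod p) a, φ ((c.val : 𝓞 K) * a) = c * φ a := by
    intro c a
    show tau p ((((c.val : 𝓞 K) * a : 𝓞 K) : K) * y) = _
    have h1 : (((c.val : 𝓞 K) * a : 𝓞 K) : K) * y = (c.val : K) * ((a : K) * y) := by
      have h3 : (((c.val : 𝓞 K) * a : 𝓞 K) : K) = ((c.val : 𝓞 K) : K) * (a : K) :=
        map_mul (algebraMap (𝓞 K) K) _ _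
      have h5 : ((c.val : 𝓞 K) : K) = (c.val : K) := map_natCast (algebraMap (𝓞 K) K) _
      rw [h3, h5, mul_assoc]
    rw [h1, tau_nat hI hSB hp _ (js_mul (is_alg a) hyJ), ZMod.natCast_zmod_val]
  have hker : ∀ a ∈ P.asIdeal, φ a = 0 := by
    intro a ha
    refine tau_is hI hSB hp fun Q hQ => ?_
    by_cases hQP : Q = P
    · rw [hQP]
      have h1 : (a : K) * y = ((a : K) / (ϖ : K)) * ((ϖ : K) * y) := by
        field_simp
      rw [h1]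
      exact rp_mul ((v2 a).2 ha) hy3
    · exact rp_mul (rp_alg a) (hy2 Q hQ hQP)
  have hne : ∃ a, φ a ≠ 0 := by
    by_contra hc
    push Not at hc
    refine hy4 ((hSC K n ω p hp hG y).2.2 fun i => ?_)
    obtain ⟨w, hw⟩ : ∃ w : 𝓞 K, (w : K) = ω i := ⟨⟨ω i, hG.1 i⟩, rfl⟩
    have h1 : tau p ((w : K) * y) = 0 := hc w
    rw [← hw, mul_comm y]
    exact (tau_iff hI hSB hp (js_mul (is_alg w) hyJ)).1 h1
  obtain ⟨d, η, e1, e2⟩ := dataP hBK hFS hp hp2 P hP φ hadd hsm hker hne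
  -- the determinant of `Ψ`
  obtain ⟨D, hD⟩ : ∃ D : 𝓞 K, D = (Matrix.of Ψ).det := ⟨_, rfl⟩
  have hdet : (dsc (ϖ : K) A - (D : K)) / (ϖ : K) ∈ RP K P := by
    have h1 := H22.det_cong O h0 hU'.2.1
      (Matrix.of fun i j : Fin (2 * g) => A i.succ j.succ / (ϖ : K))
      ((Matrix.of Ψ).map (algebraMap (𝓞 K) K)) (fun i j => (hmem _).1 (b3 i j))
      (fun i j => (hmem _).1 (rp_alg _)) (fun i j => (hmem _).1 (hΨ i j))
    rw [hmem]
    have h3 : ((Matrix.of Ψ).map (algebraMap (𝓞 K) K)).det =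
        algebraMap (𝓞 K) K D := by
      rw [hD, RingHom.map_det]
      rfl
    rw [h3] at h1
    exact h1
  have hneg : ∀ x ∈ RP K P, -x ∈ RP K P := by
    intro x hx
    rw [hmem] at hx ⊢
    exact neg_mem hx
  have hsg : ((-1 : K) ^ g) ∈ RP K P := by
    rw [hmem]
    exact pow_mem (neg_mem (one_mem O)) g
  have hdP : (Matrix.of Ψ).det ∉ P.asIdeal := by
    rw [← hD]
    intro hc
    have h1 := (v2 _).2 hc
    have h3 : dsc (ϖ : K) A / (ϖ : K) ∈ RP K P := by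
      have h4 : dsc (ϖ : K) A / (ϖ : K) = (dsc (ϖ : K) A - (D : K)) / (ϖ : K) +
          (D : K) / (ϖ : K) := by ring
      rw [h4]
      exact rp_add hdet h1
    apply hU'.2.2.1
    rw [← hmem]
    have h5 : (ϖ : K)⁻¹ = (dsc (ϖ : K) A)⁻¹ * (dsc (ϖ : K) A / (ϖ : K)) := by
      have := b4.1
      rw [div_eq_mul_inv, ← mul_assoc, inv_mul_cancel₀, one_mul]
      exact this
    rw [h5]
    exact rp_mul b4.2.2 h3
  obtain ⟨e3, e4⟩ := e2 g (Matrix.of Ψ) hdP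
  refine ⟨y, d, η, Matrix.of Ψ, hy3, hy2, hyJ, ?_, ?_, ?_, ?_⟩
  · intro i j
    have h1 : (y * A i.succ j.succ - ((Matrix.of Ψ i j : 𝓞 K) : K)) / (ϖ : K) =
        (A i.succ j.succ / (ϖ : K) - (Ψ i j : K)) / (ϖ : K) +
          (y - (ϖ : K)⁻¹) * (A i.succ j.succ / (ϖ : K)) := by
      show (y * A i.succ j.succ - (Ψ i j : K)) / (ϖ : K) = _
      field_simp
      ring
    rw [h1]
    exact rp_add (hΨ' i j) (rp_mul hy1 (b3 i j))
  · intro w hw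
    refine e1 w fun a => ?_
    have h1 := hw a
    have h3 : (((η a * w : 𝓞 K)) : K) = (η a : K) * (w : K) := map_mul (algebraMap (𝓞 K) K) _ _
    show tau p (((η a * w : 𝓞 K) : K) * y) = 0
    rw [h3]
    exact h1
  · have h1 : (Matrix.of fun s t : Fin (2 * g) × Fin d =>
        tau p ((η s.2 : K) * (η t.2 : K) * ((Matrix.of Ψ) s.1 t.1 : K) * y)) =
        Matrix.of fun s t : Fin (2 * g) × Fin d => φ (η s.2 * η t.2 * (Matrix.of Ψ) s.1 t.1) := by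
      ext s t
      show tau p ((η s.2 : K) * (η t.2 : K) * (Ψ s.1 t.1 : K) * y) =
        tau p (((η s.2 * η t.2 * Ψ s.1 t.1 : 𝓞 K) : K) * y)
      have h3 : ((η s.2 * η t.2 * Ψ s.1 t.1 : 𝓞 K) : K) =
          (η s.2 : K) * (η t.2 : K) * (Ψ s.1 t.1 : K) := by
        have h5 := map_mul (algebraMap (𝓞 K) K) (η s.2 * η t.2) (Ψ s.1 t.1)
        rw [map_mul] at h5
        exact h5
      rw [h3]
    rw [h1]
    exact e3
  · have h1 : (Matrix.of fun s t : Fin (2 * g) × Fin d =>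
        tau p ((η s.2 : K) * (η t.2 : K) * ((Matrix.of Ψ) s.1 t.1 : K) * y)) =
        Matrix.of fun s t : Fin (2 * g) × Fin d => φ (η s.2 * η t.2 * (Matrix.of Ψ) s.1 t.1) := by
      ext s t
      show tau p ((η s.2 : K) * (η t.2 : K) * (Ψ s.1 t.1 : K) * y) =
        tau p (((η s.2 * η t.2 * Ψ s.1 t.1 : 𝓞 K) : K) * y)
      have h3 : ((η s.2 * η t.2 * Ψ s.1 t.1 : 𝓞 K) : K) =
          (η s.2 : K) * (η t.2 : K) * (Ψ s.1 t.1 : K) := by
        have h5 := map_mul (algebraMap (𝓞 K) K) (η s.2 * η t.2) (Ψ s.1 t.1)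
        rw [map_mul] at h5
        exact h5
      rw [h3]
    rw [h1]
    refine e4.trans ?_
    rw [← hD]
    constructor
    · rintro ⟨a, ha⟩
      refine ⟨(a : K), rp_alg a, ?_⟩
      have h1 := (v2 _).2 ha
      have h3 : algebraMap (𝓞 K) K ((-1) ^ g * D - a ^ 2) =
          (-1) ^ g * (D : K) - (a : K) ^ 2 := by
        rw [map_sub, map_mul, map_pow, map_neg, map_one, map_pow]
      rw [h3] at h1
      have h4 : ((-1) ^ g * dsc (ϖ : K) A - (a : K) ^ 2) / (ϖ : K) =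
          (-1) ^ g * ((dsc (ϖ : K) A - (D : K)) / (ϖ : K)) +
          ((-1) ^ g * (D : K) - (a : K) ^ 2) / (ϖ : K) := by ring
      rw [h4]
      exact rp_add (rp_mul hsg hdet) h1
    · rintro ⟨z, hz, hz2⟩
      obtain ⟨a, ha⟩ := v3 z hz
      refine ⟨a, (v2 _).1 ?_⟩
      have h3 : algebraMap (𝓞 K) K ((-1) ^ g * D - a ^ 2) =
          (-1) ^ g * (D : K) - (a : K) ^ 2 := by
        rw [map_sub, map_mul, map_pow, map_neg, map_one, map_pow]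
      rw [h3]
      have ha' : (z - (a : K)) / (ϖ : K) ∈ RP K P := ha
      have h4 : ((-1) ^ g * (D : K) - (a : K) ^ 2) / (ϖ : K) =
          -((-1) ^ g * ((dsc (ϖ : K) A - (D : K)) / (ϖ : K))) +
          (((-1) ^ g * dsc (ϖ : K) A - z ^ 2) / (ϖ : K) +
            (z - (a : K)) / (ϖ : K) * (z + (a : K))) := by
        field_simp
        ring
      show ((-1) ^ g * (D : K) - (a : K) ^ 2) / (ϖ : K) ∈ RP K P
      rw [h4]
      exact rp_add (hneg _ (rp_mul hsg hdet)) (rp_add hz2 (rp_mul ha' (rp_add hz (rp_alg a))))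

end K

end Pool.NF.LDN
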